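import Pool.Agent.T2h49.CSTS.Pelt3

set_option autoImplicit false
set_option linter.unusedSectionVars false
set_option linter.unusedSimpArgs false

open Finset

namespace Pool.Agent.T2h49.CSTS

theorem exists_good (n : ℕ) (hn : 90 ≤ n) (h : n % 6 = 1 ∨ n % 6 = 3) :
    ∃ (k : ℕ) (a : Fin k → ZMod 3 → ZMod n), n ≤ 6 * k + 3 ∧ Good a := by
  have h18 : n % 18 = 1 ∨ n % 18 = 7 ∨ n % 18 = 13 ∨ n % 18 = 3 ∨ n % 18 = 9 ∨ n % 18 = 15 := by
    omega
  obtain ⟨s, hs⟩ : ∃ s, s = n / 18 := ⟨_, rfl⟩
  rcases h18 with h | h | h | h | h | h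
  · have hns : n = 18 * s + 1 := by omega
    have := B1_ok s (by omega)
    refine ⟨3 * s, aa n (3 * s) (B1 s), by omega, good1 n (3 * s) _ (by omega) (by omega) ?_⟩
    rw [hns]; push_cast; exact this
  · have hns : n = 18 * s + 7 := by omega
    have := B7_ok s (by omega)
    refine ⟨3 * s + 1, aa n (3 * s + 1) (B7 s), by omega,
      good1 n (3 * s + 1) _ (by omega) (by omega) ?_⟩
    rw [hns]; push_cast; exact this
  · have hns : n = 18 * s + 13 := by omega
    have := B13_ok s (by omega)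
    refine ⟨3 * s + 2, aa n (3 * s + 2) (B13 s), by omega,
      good1 n (3 * s + 2) _ (by omega) (by omega) ?_⟩
    rw [hns]; push_cast; exact this
  · have hns : n = 18 * s + 3 := by omega
    have := B3_ok s (by omega)
    have h2 := B3_av s (by omega)
    refine ⟨3 * s, aa n (3 * s) (B3 s), by omega,
      good3 n (3 * s) _ (by omega) (by omega) ?_ ?_⟩
    · rw [hns]; push_cast; exact this
    · push_cast; exact h2
  · have hns : n = 18 * s + 9 := by omega
    have := B9_ok s (by omega)
    have h2 := B9_av s (by omega)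
    refine ⟨3 * s + 1, aa n (3 * s + 1) (B9 s), by omega,
      good3 n (3 * s + 1) _ (by omega) (by omega) ?_ ?_⟩
    · rw [hns]; push_cast; exact this
    · push_cast; exact h2
  · have hns : n = 18 * s + 15 := by omega
    have := B15_ok s (by omega)
    have h2 := B15_av s (by omega)
    refine ⟨3 * s + 2, aa n (3 * s + 2) (B15 s), by omega,
      good3 n (3 * s + 2) _ (by omega) (by omega) ?_ ?_⟩
    · rw [hns]; push_cast; exact this
    · push_cast; exact h2

theorem inv_sys {n : ℕ} [NeZero n] (t : ZMod n → ZMod n) : Inv (sys t) := by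
  intro b
  have e1 : b.map (cyc (n := n)).toEmbedding = b.image (fun x => x + 1) := by
    rw [Finset.map_eq_image]; rfl
  rw [e1]
  constructor
  · exact map_add_mem 1
  · intro h
    have h2 := map_add_mem (t := t) (-1) h
    rw [Finset.image_image] at h2
    have e2 : ((fun x : ZMod n => x + -1) ∘ fun x : ZMod n => x + 1) = id := by
      funext x; simp
    rw [e2, Finset.image_id] at h2
    exact h2

theorem pow_ge (M k : ℕ) (hk : 9 * M + 8 ≤ k) : M * (6 * k + 3) ≤ 2 ^ k := by
  have h1 : k * k ≤ 2 ^ k := by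
    have : ∀ m : ℕ, 4 ≤ m → m * m ≤ 2 ^ m := by
      intro m hm
      induction m, hm using Nat.le_induction with
      | base => norm_num
      | succ m hm ih =>
        rw [pow_succ]
        nlinarith
    exact this k (by omega)
  have h2 : M * (6 * k + 3) ≤ k * k := by
    have : M * (6 * k + 3) ≤ (9 * M) * k := by nlinarith [Nat.zero_le M, Nat.zero_le k]
    have h3 : (9 * M) * k ≤ k * k := Nat.mul_le_mul_right k (by omega)
    omega
  omega

theorem main (M : ℕ) : ∃ N : ℕ, ∀ n : ℕ, N ≤ n → (n % 6 = 1 ∨ n % 6 = 3) →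
      ∃ B : Fin M → Finset (Finset (ZMod n)),
        (∀ i, (∀ b ∈ B i, b.card = 3) ∧
          (∀ x y : ZMod n, x ≠ y → ∃! b : Finset (ZMod n), b ∈ B i ∧ x ∈ b ∧ y ∈ b) ∧
          (∀ b ∈ B i, b.image (fun x => x + 1) ∈ B i)) ∧
        (∀ i j, i ≠ j → ¬ ∃ σ : Equiv.Perm (ZMod n),
          ∀ b : Finset (ZMod n), b ∈ B i ↔ b.map σ.toEmbedding ∈ B j) := by
  refine ⟨90 + 6 * (9 * M + 9), fun n hn h => ?_⟩
  have : NeZero n := ⟨by omega⟩
  obtain ⟨k, a, hk, ha⟩ := exists_good n (by omega) h
  obtain ⟨f, hf⟩ := many_classes (n := n) (E := Fin k → Bool) (fun e => sys (tf a e))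
    (fun e e' h => tf_inj ha e e' h) (fun e => inv_sys _) M (by
      have h1 := pow_ge M k (by omega)
      have h2 : Fintype.card (Fin k → Bool) = 2 ^ k := by simp
      rw [h2]
      exact le_trans (Nat.mul_le_mul_left M hk) h1)
  refine ⟨fun i => sys (tf a (f i)), fun i => ⟨?_, ?_, ?_⟩, hf⟩
  · intro b hb
    exact card_of_mem (isT_tf ha _) hb
  · intro x y hxy
    exact existsUnique_block (isT_tf ha _) x y hxy
  · intro b hb
    exact map_add_mem 1 hb

end Pool.Agent.T2h49.CSTS
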