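import Mathlib

set_option autoImplicit false
set_option linter.unusedSectionVars false
set_option linter.unusedSimpArgs false

open Finset

namespace Pool.Agent.T2h49.CSTS

section Group

variable {G : Type*} [AddCommGroup G] [DecidableEq G] [Fintype G]

/-- `t` is the third-point function of a translation-invariant Steiner triple system on `G`:
the block through `0` and `d` is `{0, d, t d}`. -/
structure IsT (t : G → G) : Prop where
  invol : ∀ d, d ≠ 0 → t (t d) = d
  neg : ∀ d, d ≠ 0 → t (-d) = t d - d
  ne0 : ∀ d, d ≠ 0 → t d ≠ 0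
  ned : ∀ d, d ≠ 0 → t d ≠ d

def blk (t : G → G) (x d : G) : Finset G := {x, x + d, x + t d}

def sys (t : G → G) : Finset (Finset G) :=
  (Finset.univ.filter (fun p : G × G => p.2 ≠ 0)).image (fun p => blk t p.1 p.2)

theorem mem_sys {t : G → G} {b : Finset G} : b ∈ sys t ↔ ∃ x d, d ≠ 0 ∧ b = blk t x d := by
  unfold sys
  simp only [Finset.mem_image, Finset.mem_filter, Finset.mem_univ, true_and, Prod.exists]
  constructor
  · rintro ⟨x, d, h, rfl⟩; exact ⟨x, d, h, rfl⟩
  · rintro ⟨x, d, h, rfl⟩; exact ⟨x, d, h, rfl⟩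

theorem blk_card {t : G → G} (ht : IsT t) (x d : G) (hd : d ≠ 0) : (blk t x d).card = 3 := by
  unfold blk
  rw [Finset.card_eq_three]
  refine ⟨x, x + d, x + t d, ?_, ?_, ?_, rfl⟩
  · intro h; exact hd (by simpa using h)
  · intro h; exact ht.ne0 d hd (by simpa using h)
  · intro h; exact ht.ned d hd (by simpa using h.symm)

theorem card_of_mem {t : G → G} (ht : IsT t) {b : Finset G} (hb : b ∈ sys t) : b.card = 3 := by
  obtain ⟨x, d, hd, rfl⟩ := mem_sys.1 hb
  exact blk_card ht x d hd

theorem blk_unique {t : G → G} (ht : IsT t) {b : Finset G} (hb : b ∈ sys t) {x y : G}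
    (hx : x ∈ b) (hy : y ∈ b) (hxy : x ≠ y) : b = blk t x (y - x) := by
  obtain ⟨z, d, hd, rfl⟩ := mem_sys.1 hb
  have h1 := ht.invol d hd
  have h2 := ht.neg d hd
  have h3 : t (-(t d)) = d - t d := by rw [ht.neg _ (ht.ne0 d hd), h1]
  have h4 : t (t d - d) = -d := by
    rw [← h2]; exact ht.invol _ (neg_ne_zero.2 hd)
  have h5 : t (d - t d) = - t d := by
    rw [← h3]; exact ht.invol _ (neg_ne_zero.2 (ht.ne0 d hd))
  simp only [blk, Finset.mem_insert, Finset.mem_singleton] at hx hy
  unfold blk
  rcases hx with rfl | rfl | rfl <;> rcases hy with rfl | rfl | rfl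
  · exact absurd rfl hxy
  · have e1 : x + d - x = d := by abel
    rw [e1]
  · have e1 : x + t d - x = t d := by abel
    rw [e1, h1]
    ext w; simp only [Finset.mem_insert, Finset.mem_singleton]; tauto
  · have e1 : y - (y + d) = -d := by abel
    rw [e1, h2]
    have e2 : y + d + -d = y := by abel
    have e3 : y + d + (t d - d) = y + t d := by abel
    rw [e2, e3]
    ext w; simp only [Finset.mem_insert, Finset.mem_singleton]; tauto
  · exact absurd rfl hxy
  · have e1 : z + t d - (z + d) = t d - d := by abel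
    rw [e1, h4]
    have e2 : z + d + (t d - d) = z + t d := by abel
    have e3 : z + d + -d = z := by abel
    rw [e2, e3]
    ext w; simp only [Finset.mem_insert, Finset.mem_singleton]; tauto
  · have e1 : y - (y + t d) = -(t d) := by abel
    rw [e1, h3]
    have e2 : y + t d + -(t d) = y := by abel
    have e3 : y + t d + (d - t d) = y + d := by abel
    rw [e2, e3]
    ext w; simp only [Finset.mem_insert, Finset.mem_singleton]; tauto
  · have e1 : z + d - (z + t d) = d - t d := by abel
    rw [e1, h5]
    have e2 : z + t d + (d - t d) = z + d := by abel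
    have e3 : z + t d + -(t d) = z := by abel
    rw [e2, e3]
    ext w; simp only [Finset.mem_insert, Finset.mem_singleton]; tauto
  · exact absurd rfl hxy

theorem blk_mem {t : G → G} (x d : G) (hd : d ≠ 0) : blk t x d ∈ sys t :=
  mem_sys.2 ⟨x, d, hd, rfl⟩

theorem existsUnique_block {t : G → G} (ht : IsT t) (x y : G) (hxy : x ≠ y) :
    ∃! b : Finset G, b ∈ sys t ∧ x ∈ b ∧ y ∈ b := by
  refine ⟨blk t x (y - x), ⟨blk_mem _ _ (sub_ne_zero.2 hxy.symm), ?_, ?_⟩, ?_⟩
  · simp [blk]
  · simp [blk]
  · rintro b ⟨hb, hx, hy⟩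
    exact blk_unique ht hb hx hy hxy

theorem map_add_mem {t : G → G} {b : Finset G} (c : G) (hb : b ∈ sys t) :
    b.image (fun x => x + c) ∈ sys t := by
  obtain ⟨x, d, hd, rfl⟩ := mem_sys.1 hb
  refine mem_sys.2 ⟨x + c, d, hd, ?_⟩
  unfold blk
  rw [Finset.image_insert, Finset.image_insert, Finset.image_singleton]
  have e1 : x + d + c = x + c + d := by abel
  have e2 : x + t d + c = x + c + t d := by abel
  rw [e1, e2]

theorem t_eq_of_sys_eq {t t' : G → G} (ht : IsT t) (ht' : IsT t') (h : sys t = sys t') (d : G)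
    (hd : d ≠ 0) : t d = t' d := by
  have h1 : blk t 0 d ∈ sys t' := h ▸ blk_mem 0 d hd
  have h2 : blk t 0 d = blk t' 0 d := by
    have := blk_unique ht' h1 (x := 0) (y := d) (by simp [blk]) (by simp [blk]) hd.symm
    simpa using this
  have h3 : t d ∈ blk t' 0 d := by
    rw [← h2]; simp [blk]
  simp only [blk, zero_add, Finset.mem_insert, Finset.mem_singleton] at h3
  rcases h3 with h3 | h3 | h3
  · exact absurd h3 (ht.ne0 d hd)
  · exact absurd h3 (ht.ned d hd)
  · exact h3

/-! ### From difference triples -/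

variable {k : ℕ}

/-- signed entries of the difference triples -/
def val (a : Fin k → ZMod 3 → G) (p : Fin k × ZMod 3 × Bool) : G :=
  if p.2.2 then a p.1 p.2.1 else - a p.1 p.2.1

def tau (e : Fin k → Bool) (p : Fin k × ZMod 3 × Bool) : Fin k × ZMod 3 × Bool :=
  (p.1, if p.2.2 = e p.1 then p.2.1 - 1 else p.2.1 + 1, !p.2.2)

open Classical in
noncomputable def tf (a : Fin k → ZMod 3 → G) (e : Fin k → Bool) (d : G) : G :=
  if h : ∃ p, val a p = d then val a (tau e h.choose) else d + d

structure Good (a : Fin k → ZMod 3 → G) : Prop where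
  inj : Function.Injective (val a)
  ne0 : ∀ p, val a p ≠ 0
  sum : ∀ i j, a i j + a i (j + 1) + a i (j + 2) = 0
  cov : ∀ d, d ≠ 0 → (∃ p, val a p = d) ∨ d + d + d = 0

variable {a : Fin k → ZMod 3 → G}

theorem tf_val (ha : Good a) (e : Fin k → Bool) (p) : tf a e (val a p) = val a (tau e p) := by
  have h : ∃ q, val a q = val a p := ⟨p, rfl⟩
  unfold tf
  rw [dif_pos h]
  congr 2
  exact ha.inj h.choose_spec

theorem tf_not (e : Fin k → Bool) (d : G) (h : ¬ ∃ p, val a p = d) : tf a e d = d + d := by
  unfold tf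
  rw [dif_neg h]

theorem tau_tau (e : Fin k → Bool) (p : Fin k × ZMod 3 × Bool) : tau e (tau e p) = p := by
  obtain ⟨i, j, s⟩ := p
  unfold tau
  by_cases h : s = e i
  · have h' : ¬ ((!s) = e i) := by rw [← h]; cases s <;> simp
    simp [h, h']
  · have h' : (!s) = e i := by cases s <;> cases hh : e i <;> simp_all
    simp [h, h']

theorem val_neg (i : Fin k) (j : ZMod 3) (s : Bool) : - val a (i, j, s) = val a (i, j, !s) := by
  cases s <;> simp [val]

theorem isT_tf (ha : Good a) (e : Fin k → Bool) : IsT (tf a e) := by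
  constructor
  · intro d hd
    by_cases h : ∃ p, val a p = d
    · obtain ⟨p, rfl⟩ := h
      rw [tf_val ha, tf_val ha, tau_tau]
    · have h3 := (ha.cov d hd).resolve_left h
      have h' : ¬ ∃ p, val a p = d + d := by
        rintro ⟨⟨i, j, s⟩, hp⟩
        apply h
        refine ⟨(i, j, !s), ?_⟩
        rw [← val_neg, hp]
        have : d + d = - d := by
          rw [eq_neg_iff_add_eq_zero]; exact h3
        rw [this, neg_neg]
      rw [tf_not e d h, tf_not e _ h']
      have : d + d + (d + d) = (d + d + d) + d := by abel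
      rw [this, h3, zero_add]
  · intro d hd
    by_cases h : ∃ p, val a p = d
    · obtain ⟨⟨i, j, s⟩, rfl⟩ := h
      rw [val_neg, tf_val ha, tf_val ha]
      have hs := ha.sum i (j - 1)
      have e1 : j - 1 + 1 = j := by ring
      have e2 : j - 1 + 2 = j + 1 := by ring
      rw [e1, e2] at hs
      have key : a i (j - 1) = - a i j - a i (j + 1) := by
        have := eq_neg_of_add_eq_zero_left (a := a i (j-1)) (b := a i j + a i (j+1))
              (by rw [← hs]; abel)
        rw [this]; abel
      cases s <;> cases he : e i <;> simp [tau, val, he, key] <;> abel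
    · have h3 := (ha.cov d hd).resolve_left h
      have h' : ¬ ∃ p, val a p = -d := by
        rintro ⟨⟨i, j, s⟩, hp⟩
        apply h
        refine ⟨(i, j, !s), ?_⟩
        rw [← val_neg, hp, neg_neg]
      rw [tf_not e d h, tf_not e _ h']
      have : d = -(d + d) := by
        rw [eq_neg_iff_add_eq_zero]; rw [← h3]; abel
      have e2 : -d + -d = -(d + d) := by abel
      rw [e2, ← this]; abel
  · intro d hd
    by_cases h : ∃ p, val a p = d
    · obtain ⟨p, rfl⟩ := h
      rw [tf_val ha]
      exact ha.ne0 _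
    · have h3 := (ha.cov d hd).resolve_left h
      rw [tf_not e d h]
      intro h2
      rw [h2, zero_add] at h3
      exact hd h3
  · intro d hd
    by_cases h : ∃ p, val a p = d
    · obtain ⟨p, rfl⟩ := h
      rw [tf_val ha]
      intro hh
      have := ha.inj hh
      have h2 := congrArg (fun q => q.2.2) this
      simp [tau] at h2
    · rw [tf_not e d h]
      intro h2
      exact hd (by simpa using h2)

theorem tf_inj (ha : Good a) (e e' : Fin k → Bool) (h : sys (tf a e) = sys (tf a e')) :
    e = e' := by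
  funext i
  have h1 := t_eq_of_sys_eq (isT_tf ha e) (isT_tf ha e') h (val a (i, 0, true)) (ha.ne0 _)
  rw [tf_val ha, tf_val ha] at h1
  have h2 := ha.inj h1
  have h3 := congrArg (fun q => q.2.1) h2
  simp only [tau] at h3
  by_contra hne
  cases he : e i <;> cases he' : e' i <;> simp_all
  · exact absurd h3 (by decide)
  · exact absurd h3 (by decide)

end Group

end Pool.Agent.T2h49.CSTS
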