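import Pool.Agent.T2h49.CSTS.Base

set_option autoImplicit false
set_option linter.unusedSectionVars false
set_option linter.unusedSimpArgs false

open Finset

namespace Pool.Agent.T2h49.CSTS

section

variable {n : ℕ} [NeZero n]

/-- isomorphism of block systems on `ZMod n` -/
def Iso (A B : Finset (Finset (ZMod n))) : Prop :=
  ∃ σ : Equiv.Perm (ZMod n), ∀ b : Finset (ZMod n), b ∈ A ↔ b.map σ.toEmbedding ∈ B

theorem map_map_symm (σ : Equiv.Perm (ZMod n)) (b : Finset (ZMod n)) :
    (b.map σ.symm.toEmbedding).map σ.toEmbedding = b := by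
  ext x
  simp [Finset.mem_map]

theorem map_mul (σ τ : Equiv.Perm (ZMod n)) (b : Finset (ZMod n)) :
    b.map (σ * τ).toEmbedding = (b.map τ.toEmbedding).map σ.toEmbedding := by
  rw [Finset.map_map]; rfl

theorem map_one' (b : Finset (ZMod n)) : b.map (1 : Equiv.Perm (ZMod n)).toEmbedding = b :=
  Finset.map_refl

theorem Iso.refl (A : Finset (Finset (ZMod n))) : Iso A A := ⟨1, fun b => by rw [map_one']⟩

theorem Iso.symm {A B : Finset (Finset (ZMod n))} (h : Iso A B) : Iso B A := by
  obtain ⟨σ, hσ⟩ := h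
  refine ⟨σ⁻¹, fun b => ?_⟩
  rw [hσ]
  have : (b.map (σ⁻¹ : Equiv.Perm (ZMod n)).toEmbedding).map σ.toEmbedding = b :=
    map_map_symm σ b
  rw [this]

theorem Iso.trans {A B C : Finset (Finset (ZMod n))} (h : Iso A B) (h' : Iso B C) :
    Iso A C := by
  obtain ⟨σ, hσ⟩ := h
  obtain ⟨τ, hτ⟩ := h'
  exact ⟨τ * σ, fun b => by rw [map_mul, ← hτ, ← hσ]⟩

/-- translation by one -/
def cyc : Equiv.Perm (ZMod n) := Equiv.addRight (1 : ZMod n)

def Inv (A : Finset (Finset (ZMod n))) : Prop :=
  ∀ b : Finset (ZMod n), b ∈ A ↔ b.map (cyc (n := n)).toEmbedding ∈ A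

theorem comm_fix (ρ : Equiv.Perm (ZMod n)) (h : ∀ x, ρ (x + 1) = ρ x + 1) (y : ZMod n)
    (hy : ρ y = y) : ρ = 1 := by
  have h1 : ∀ m : ℕ, ρ (y + m) = y + m := by
    intro m
    induction m with
    | zero => simpa using hy
    | succ m ih =>
      have : (y + ((m + 1 : ℕ) : ZMod n)) = (y + m) + 1 := by push_cast; ring
      rw [this, h, ih]
  ext x
  have h2 := h1 (x - y).val
  rw [ZMod.natCast_zmod_val] at h2
  have : y + (x - y) = x := by ring
  rw [this] at h2
  rw [h2]; rfl

open Classical in
/-- An isomorphism class contains at most `n` of the members of an injective family of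
cyclic systems. -/
theorem class_le {E : Type*} [Fintype E] (B : E → Finset (Finset (ZMod n)))
    (hinj : Function.Injective B) (hB : ∀ e, Inv (B e)) (e₀ : E) :
    (Finset.univ.filter (fun e => Iso (B e₀) (B e))).card ≤ n := by
  classical
  set S := Finset.univ.filter (fun e => Iso (B e₀) (B e)) with hS
  set Γ : Finset (Equiv.Perm (ZMod n)) := Finset.univ.filter
    (fun g => ∀ b : Finset (ZMod n), b ∈ B e₀ ↔ b.map g.toEmbedding ∈ B e₀) with hΓ
  have hone : (1 : Equiv.Perm (ZMod n)) ∈ Γ := by
    rw [hΓ, Finset.mem_filter]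
    exact ⟨Finset.mem_univ _, fun b => by rw [map_one']⟩
  have hpos : 0 < Γ.card := Finset.card_pos.2 ⟨1, hone⟩
  have hch : ∀ e : E, ∃ σ : Equiv.Perm (ZMod n), e ∈ S →
      ∀ b : Finset (ZMod n), b ∈ B e₀ ↔ b.map σ.toEmbedding ∈ B e := by
    intro e
    by_cases he : e ∈ S
    · obtain ⟨σ, hσ⟩ := (Finset.mem_filter.1 he).2
      exact ⟨σ, fun _ => hσ⟩
    · exact ⟨1, fun h => absurd h he⟩
  choose s hs using hch
  have key : (S ×ˢ Γ).card ≤ (Γ ×ˢ (Finset.univ : Finset (ZMod n))).card := by
    apply Finset.card_le_card_of_injOn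
      (fun p => ((s p.1 * p.2)⁻¹ * cyc * (s p.1 * p.2), (s p.1 * p.2) 0))
    · rintro ⟨e, g⟩ hp
      rw [Finset.mem_coe, Finset.mem_product] at hp
      rw [Finset.mem_coe, Finset.mem_product]
      refine ⟨?_, Finset.mem_univ _⟩
      simp only
      have hg := (Finset.mem_filter.1 hp.2).2
      have he := hs e hp.1
      have hσ : ∀ b : Finset (ZMod n), b ∈ B e₀ ↔ b.map (s e * g).toEmbedding ∈ B e := by
        intro b
        rw [map_mul, ← he, ← hg]
      rw [hΓ, Finset.mem_filter]
      generalize s e * g = σ at hσ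
      refine ⟨Finset.mem_univ _, fun b => ?_⟩
      rw [hσ b, hB e]
      conv_rhs => rw [hσ]
      rw [← map_mul, ← map_mul]
      have : σ * (σ⁻¹ * cyc * σ) = cyc * σ := by group
      rw [this]
    · rintro ⟨e, g⟩ hp ⟨e', g'⟩ hp' heq
      rw [Finset.mem_coe, Finset.mem_product] at hp hp'
      simp only [Prod.mk.injEq] at heq
      obtain ⟨h1, h2⟩ := heq
      set σ := s e * g with hσ
      set τ := s e' * g' with hτ
      have h3 : cyc * (σ * τ⁻¹) = (σ * τ⁻¹) * cyc := by
        have : cyc * σ = σ * (τ⁻¹ * cyc * τ) := by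
          rw [← h1]; group
        calc cyc * (σ * τ⁻¹) = (cyc * σ) * τ⁻¹ := by group
          _ = σ * (τ⁻¹ * cyc * τ) * τ⁻¹ := by rw [this]
          _ = _ := by group
      have h4 : σ * τ⁻¹ = 1 := by
        apply comm_fix (σ * τ⁻¹) _ (τ 0)
        · rw [Equiv.Perm.mul_apply]
          have : τ⁻¹ (τ 0) = 0 := τ.symm_apply_apply 0
          rw [this, h2]
        · intro x
          have := congrArg (fun f : Equiv.Perm (ZMod n) => f x) h3
          simp only [Equiv.Perm.mul_apply, cyc, Equiv.coe_addRight] at this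
          simp only [Equiv.Perm.mul_apply]
          exact this.symm
      have h5 : σ = τ := by
        rw [mul_inv_eq_one] at h4; exact h4
      have hg := (Finset.mem_filter.1 hp.2).2
      have he := hs e hp.1
      have hg' := (Finset.mem_filter.1 hp'.2).2
      have he' := hs e' hp'.1
      have hσ1 : ∀ b : Finset (ZMod n), b ∈ B e₀ ↔ b.map σ.toEmbedding ∈ B e := by
        intro b
        rw [hσ, map_mul, ← he, ← hg]
      have hσ2 : ∀ b : Finset (ZMod n), b ∈ B e₀ ↔ b.map τ.toEmbedding ∈ B e' := by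
        intro b
        rw [hτ, map_mul, ← he', ← hg']
      have hee : B e = B e' := by
        ext b
        have h6 := hσ1 (b.map (σ⁻¹ : Equiv.Perm (ZMod n)).toEmbedding)
        have h7 := hσ2 (b.map (σ⁻¹ : Equiv.Perm (ZMod n)).toEmbedding)
        rw [← h5] at h7
        have h8 : (b.map (σ⁻¹ : Equiv.Perm (ZMod n)).toEmbedding).map σ.toEmbedding = b :=
          map_map_symm σ b
        rw [h8] at h6 h7
        rw [← h6, ← h7]
      have he2 := hinj hee
      subst he2
      have : g = g' := by
        have := h5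
        rw [hσ, hτ] at this
        exact mul_left_cancel this
      rw [this]
  rw [Finset.card_product, Finset.card_product, Finset.card_univ, ZMod.card] at key
  rw [mul_comm Γ.card n] at key
  exact Nat.le_of_mul_le_mul_right key hpos

open Classical in
/-- many classes -/
theorem many_classes {E : Type*} [Fintype E] (B : E → Finset (Finset (ZMod n)))
    (hinj : Function.Injective B) (hB : ∀ e, Inv (B e)) (M : ℕ) (hM : M * n ≤ Fintype.card E) :
    ∃ f : Fin M → E, ∀ i j, i ≠ j → ¬ Iso (B (f i)) (B (f j)) := by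
  classical
  let st : Setoid E :=
    { r := fun e e' => Iso (B e) (B e')
      iseqv := ⟨fun e => Iso.refl _, fun h => h.symm, fun h h' => h.trans h'⟩ }
  have h1 : (Finset.univ : Finset E).card ≤
      n * ((Finset.univ : Finset E).image (fun e => (Quotient.mk st e))).card := by
    apply Finset.card_le_mul_card_image
    intro q hq
    obtain ⟨e₀, -, rfl⟩ := Finset.mem_image.1 hq
    refine le_trans (Finset.card_le_card ?_) (class_le B hinj hB e₀)
    intro e he
    rw [Finset.mem_filter] at he ⊢
    refine ⟨Finset.mem_univ _, ?_⟩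
    have := Quotient.exact he.2
    exact Iso.symm this
  have hn : 0 < n := Nat.pos_of_ne_zero (NeZero.ne n)
  have h2 : M ≤ ((Finset.univ : Finset E).image (fun e => (Quotient.mk st e))).card := by
    rw [Finset.card_univ] at h1
    have : M * n ≤ ((Finset.univ : Finset E).image (fun e => (Quotient.mk st e))).card * n := by
      calc M * n ≤ Fintype.card E := hM
        _ ≤ n * _ := h1
        _ = _ := mul_comm _ _
    exact Nat.le_of_mul_le_mul_right this hn
  obtain ⟨u, hu1, hu2⟩ := Finset.exists_subset_card_eq h2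
  have eqv : Fin M ≃ u := (Fintype.equivFinOfCardEq (by rw [Fintype.card_coe]; exact hu2)).symm
  refine ⟨fun i => (eqv i).1.out, fun i j hij h => hij ?_⟩
  have h3 : (eqv i).1 = (eqv j).1 := by
    rw [← Quotient.out_eq (eqv i).1, ← Quotient.out_eq (eqv j).1]
    exact Quotient.sound h
  exact eqv.injective (Subtype.ext h3)

end

end Pool.Agent.T2h49.CSTS
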