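import Pool.Agent.T2h49.CSTS.Count

set_option autoImplicit false
set_option linter.unusedSectionVars false
set_option linter.unusedSimpArgs false

open Finset

namespace Pool.Agent.T2h49.CSTS

/-- the combinatorial conditions on a solution `(x, B x, x + B x)`, `1 ≤ x ≤ k`, of Heffter's
difference problem modulo `n` -/
def HOK (n k : ℤ) (B : ℤ → ℤ) : Prop :=
  ∀ x, 1 ≤ x → x ≤ k → 0 < B x ∧ x + B x < n ∧ ∀ y, 1 ≤ y → y ≤ k →
    (B x = B y → x = y) ∧ (x + B x = y + B y → x = y) ∧ B x ≠ y ∧ x + B x ≠ y ∧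
    B x ≠ y + B y ∧ x + y ≠ n ∧ x + B y ≠ n ∧ x + (y + B y) ≠ n ∧ B x + B y ≠ n ∧
    B x + (y + B y) ≠ n ∧ x + B x + (y + B y) ≠ n

/-- the triples avoid `± n/3` -/
def HAv (k : ℤ) (B : ℤ → ℤ) : Prop :=
  ∀ x, 1 ≤ x → x ≤ k → B x ≠ 2 * k + 1 ∧ x + B x ≠ 2 * k + 1 ∧ B x ≠ 4 * k + 2 ∧
    x + B x ≠ 4 * k + 2

def u (B : ℤ → ℤ) (x : ℤ) (j : ZMod 3) : ℤ :=
  if j = 0 then x else if j = 1 then B x else -(x + B x)

def aa (n k : ℕ) (B : ℤ → ℤ) (i : Fin k) (j : ZMod 3) : ZMod n := (u B ((i : ℤ) + 1) j : ZMod n)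

theorem val_aa (n k : ℕ) (B : ℤ → ℤ) (p : Fin k × ZMod 3 × Bool) :
    val (aa n k B) p = (((if p.2.2 then u B ((p.1 : ℤ) + 1) p.2.1
      else - u B ((p.1 : ℤ) + 1) p.2.1 : ℤ)) : ZMod n) := by
  unfold val aa
  split_ifs <;> push_cast <;> rfl

theorem zmod3_cases (j : ZMod 3) : j = 0 ∨ j = 1 ∨ j = 2 := by
  revert j; decide

theorem u0 (B : ℤ → ℤ) (x : ℤ) : u B x 0 = x := by simp [u]
theorem u1 (B : ℤ → ℤ) (x : ℤ) : u B x 1 = B x := by
  have : (1 : ZMod 3) ≠ 0 := by decide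
  simp [u, this]
theorem u2 (B : ℤ → ℤ) (x : ℤ) : u B x 2 = -(x + B x) := by
  have : (2 : ZMod 3) ≠ 0 := by decide
  have : (2 : ZMod 3) ≠ 1 := by decide
  simp [u, *]

theorem dvd_cases (n w : ℤ) (h1 : - 2 * n < w) (h2 : w < 2 * n) (h : n ∣ w) :
    w = 0 ∨ w = n ∨ w = -n := by
  obtain ⟨c, rfl⟩ := h
  have hn : 0 < n := by
    by_contra hn
    push Not at hn
    linarith
  have h3 : c < 2 := by nlinarith
  have h4 : -2 < c := by nlinarith
  have : c = 0 ∨ c = 1 ∨ c = -1 := by omega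
  rcases this with rfl | rfl | rfl
  · left; ring
  · right; left; ring
  · right; right; ring

theorem inj_aa (n k : ℕ) (B : ℤ → ℤ) (hn : 2 * k < n) (h : HOK n k B) :
    Function.Injective (val (aa n k B)) := by
  rintro ⟨i, j, s⟩ ⟨i', j', s'⟩ heq
  rw [val_aa, val_aa, ZMod.intCast_eq_intCast_iff_dvd_sub] at heq
  have hi := i.2
  have hi' := i'.2
  obtain ⟨a1, a2, a3⟩ := h ((i : ℤ) + 1) (by omega) (by omega)
  obtain ⟨b1, b2, b3⟩ := h ((i' : ℤ) + 1) (by omega) (by omega)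
  have c1 := a3 ((i' : ℤ) + 1) (by omega) (by omega)
  have c2 := b3 ((i : ℤ) + 1) (by omega) (by omega)
  have c3 := a3 ((i : ℤ) + 1) (by omega) (by omega)
  have hn' : (2 * k : ℤ) < n := by exact_mod_cast hn
  have hik : ((i : ℤ) + 1) ≤ k := by omega
  have hik' : ((i' : ℤ) + 1) ≤ k := by omega
  have hi0 : 0 < ((i : ℤ) + 1) := by omega
  have hi0' : 0 < ((i' : ℤ) + 1) := by omega
  have hii : ((i : ℤ) + 1) = ((i' : ℤ) + 1) → i = i' := fun hh => Fin.ext (by omega)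
  clear a3 b3
  simp only at heq
  generalize ((i : ℤ) + 1) = x at *
  generalize ((i' : ℤ) + 1) = y at *
  have key : x = y ∧ j = j' ∧ s = s' := by
    rcases zmod3_cases j with rfl | rfl | rfl <;> rcases zmod3_cases j' with rfl | rfl | rfl <;>
    cases s <;> cases s' <;>
    simp only [u0, u1, u2, Bool.false_eq_true, if_true, if_false] at heq <;>
    (rcases dvd_cases _ _ (by omega) (by omega) heq with hh | hh | hh <;>
        first
        | (exfalso; omega)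
        | exact ⟨by omega, rfl, rfl⟩)
  obtain ⟨k1, k2, k3⟩ := key
  rw [hii k1, k2, k3]

end Pool.Agent.T2h49.CSTS
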