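import Pool.Agent.T2h49.CSTS.Pelt

set_option autoImplicit false
set_option linter.unusedSectionVars false
set_option linter.unusedSimpArgs false

open Finset

namespace Pool.Agent.T2h49.CSTS

theorem ne0_aa (n k : ℕ) (B : ℤ → ℤ) (hn : 2 * k < n) (h : HOK n k B)
    (p : Fin k × ZMod 3 × Bool) : val (aa n k B) p ≠ 0 := by
  obtain ⟨i, j, s⟩ := p
  intro heq
  rw [val_aa, ZMod.intCast_zmod_eq_zero_iff_dvd] at heq
  have hi := i.2
  obtain ⟨a1, a2, -⟩ := h ((i : ℤ) + 1) (by omega) (by omega)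
  have hn' : (2 * k : ℤ) < n := by exact_mod_cast hn
  have hi0 : 0 < ((i : ℤ) + 1) := by omega
  have hik : ((i : ℤ) + 1) ≤ k := by omega
  simp only at heq
  generalize ((i : ℤ) + 1) = x at *
  rcases zmod3_cases j with rfl | rfl | rfl <;>
    cases s <;>
    simp only [u0, u1, u2, Bool.false_eq_true, if_true, if_false] at heq <;>
    (rcases dvd_cases _ _ (by omega) (by omega) heq with hh | hh | hh <;> omega)

theorem sum_aa (n k : ℕ) (B : ℤ → ℤ) (i : Fin k) (j : ZMod 3) :
    aa n k B i j + aa n k B i (j + 1) + aa n k B i (j + 2) = 0 := by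
  unfold aa
  rcases zmod3_cases j with rfl | rfl | rfl
  · have e1 : (0 : ZMod 3) + 1 = 1 := by decide
    have e2 : (0 : ZMod 3) + 2 = 2 := by decide
    rw [e1, e2, u0, u1, u2]; push_cast; ring
  · have e1 : (1 : ZMod 3) + 1 = 2 := by decide
    have e2 : (1 : ZMod 3) + 2 = 0 := by decide
    rw [e1, e2, u0, u1, u2]; push_cast; ring
  · have e1 : (2 : ZMod 3) + 1 = 0 := by decide
    have e2 : (2 : ZMod 3) + 2 = 1 := by decide
    rw [e1, e2, u0, u1, u2]; push_cast; ring

theorem card_idx (k : ℕ) : Fintype.card (Fin k × ZMod 3 × Bool) = 6 * k := by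
  simp [ZMod.card]; ring

theorem good1 (n k : ℕ) (B : ℤ → ℤ) (hk : 1 ≤ k) (hn : n = 6 * k + 1) (h : HOK n k B) :
    Good (aa n k B) := by
  have : NeZero n := ⟨by omega⟩
  have hinj := inj_aa n k B (by omega) h
  have hne := ne0_aa n k B (by omega) h
  refine ⟨hinj, hne, sum_aa n k B, fun d hd => Or.inl ?_⟩
  by_contra hcon
  push Not at hcon
  have h1 : ((Finset.univ : Finset (Fin k × ZMod 3 × Bool)).image (val (aa n k B))) ⊆
      (Finset.univ.erase 0).erase d := by
    intro x hx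
    obtain ⟨p, -, rfl⟩ := Finset.mem_image.1 hx
    simp only [Finset.mem_erase, Finset.mem_univ, and_true]
    exact ⟨hcon p, hne p⟩
  have h2 := Finset.card_le_card h1
  have h3 : ((Finset.univ.erase (0 : ZMod n)).erase d).card = n - 1 - 1 := by
    rw [Finset.card_erase_of_mem (by simp [hd]), Finset.card_erase_of_mem (Finset.mem_univ _),
      Finset.card_univ, ZMod.card]
  rw [Finset.card_image_of_injective _ hinj, Finset.card_univ, card_idx, h3] at h2

  omega

theorem avoid (n k : ℕ) (B : ℤ → ℤ) (hn : n = 6 * k + 3) (h : HOK n k B) (h' : HAv k B)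
    (p : Fin k × ZMod 3 × Bool) : val (aa n k B) p ≠ ((2 * k + 1 : ℤ) : ZMod n) ∧
    val (aa n k B) p ≠ ((4 * k + 2 : ℤ) : ZMod n) := by
  obtain ⟨i, j, s⟩ := p
  have hi := i.2
  obtain ⟨a1, a2, -⟩ := h ((i : ℤ) + 1) (by omega) (by omega)
  obtain ⟨b1, b2, b3, b4⟩ := h' ((i : ℤ) + 1) (by omega) (by omega)
  have hi0 : 0 < ((i : ℤ) + 1) := by omega
  have hik : ((i : ℤ) + 1) ≤ k := by omega
  have hn' : (n : ℤ) = 6 * k + 3 := by exact_mod_cast hn
  constructor
  all_goals
    intro heq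
    rw [val_aa, ZMod.intCast_eq_intCast_iff_dvd_sub] at heq
    simp only at heq
    generalize ((i : ℤ) + 1) = x at *
    rcases zmod3_cases j with rfl | rfl | rfl <;>
    cases s <;>
    simp only [u0, u1, u2, Bool.false_eq_true, if_true, if_false] at heq <;>
    (rcases dvd_cases _ _ (by omega) (by omega) heq with hh | hh | hh <;> omega)

theorem good3 (n k : ℕ) (B : ℤ → ℤ) (hk : 1 ≤ k) (hn : n = 6 * k + 3) (h : HOK n k B) (h' : HAv k B) :
    Good (aa n k B) := by
  have : NeZero n := ⟨by omega⟩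
  have hinj := inj_aa n k B (by omega) h
  have hne := ne0_aa n k B (by omega) h
  refine ⟨hinj, hne, sum_aa n k B, fun d hd => ?_⟩
  by_cases hd1 : d = ((2 * k + 1 : ℤ) : ZMod n)
  · right
    rw [hd1]
    have : ((2 * k + 1 : ℤ) : ZMod n) + ((2 * k + 1 : ℤ) : ZMod n) + ((2 * k + 1 : ℤ) : ZMod n)
      = ((n : ℤ) : ZMod n) := by
      rw [hn]; push_cast; ring
    rw [this]; simp
  by_cases hd2 : d = ((4 * k + 2 : ℤ) : ZMod n)
  · right
    rw [hd2]
    have : ((4 * k + 2 : ℤ) : ZMod n) + ((4 * k + 2 : ℤ) : ZMod n) + ((4 * k + 2 : ℤ) : ZMod n)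
      = 2 * ((n : ℤ) : ZMod n) := by
      rw [hn]; push_cast; ring
    rw [this]; simp
  left
  by_contra hcon
  push Not at hcon
  have e1 : ((2 * k + 1 : ℤ) : ZMod n) ≠ 0 := by
    rw [Ne, ZMod.intCast_zmod_eq_zero_iff_dvd]
    intro hh
    have := Int.le_of_dvd (by omega) hh
    omega
  have e2 : ((4 * k + 2 : ℤ) : ZMod n) ≠ 0 := by
    rw [Ne, ZMod.intCast_zmod_eq_zero_iff_dvd]
    intro hh
    have := Int.le_of_dvd (by omega) hh
    omega
  have e3 : ((4 * k + 2 : ℤ) : ZMod n) ≠ ((2 * k + 1 : ℤ) : ZMod n) := by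
    intro hh
    apply e1
    have : ((4 * k + 2 : ℤ) : ZMod n) = ((2 * k + 1 : ℤ) : ZMod n) + ((2 * k + 1 : ℤ) : ZMod n) := by
      push_cast; ring
    rw [this] at hh
    simpa using hh
  have h1 : ((Finset.univ : Finset (Fin k × ZMod 3 × Bool)).image (val (aa n k B))) ⊆
      (((Finset.univ.erase 0).erase d).erase ((2 * k + 1 : ℤ) : ZMod n)).erase
        ((4 * k + 2 : ℤ) : ZMod n) := by
    intro x hx
    obtain ⟨p, -, rfl⟩ := Finset.mem_image.1 hx
    simp only [Finset.mem_erase, Finset.mem_univ, and_true]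
    exact ⟨(avoid n k B hn h h' p).2, (avoid n k B hn h h' p).1, hcon p, hne p⟩
  have h2 := Finset.card_le_card h1
  have h3 : ((((Finset.univ.erase (0 : ZMod n)).erase d).erase ((2 * k + 1 : ℤ) : ZMod n)).erase
        ((4 * k + 2 : ℤ) : ZMod n)).card = n - 1 - 1 - 1 - 1 := by
    rw [Finset.card_erase_of_mem, Finset.card_erase_of_mem,
      Finset.card_erase_of_mem (by simp [hd]), Finset.card_erase_of_mem (Finset.mem_univ _),
      Finset.card_univ, ZMod.card]
    · simp only [Finset.mem_erase, Finset.mem_univ, and_true]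
      exact ⟨fun h => hd1 h.symm, e1⟩
    · simp only [Finset.mem_erase, Finset.mem_univ, and_true]
      exact ⟨e3, fun h => hd2 h.symm, e2⟩
  rw [Finset.card_image_of_injective _ hinj, Finset.card_univ, card_idx, h3] at h2
  omega

end Pool.Agent.T2h49.CSTS
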