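import Pool.Agent.T2h49.CSTS.Pelt2

set_option autoImplicit false
set_option linter.unusedSectionVars false
set_option linter.unusedSimpArgs false

open Finset

namespace Pool.Agent.T2h49.CSTS

/-! Peltesohn's difference triples `(x, B x, x + B x)`. -/

def B1 (s x : ℤ) : ℤ :=
  if x = 3 * s then 3 * s + 1
  else if x % 3 = 1 then 4 * s - (x - 1) / 3 + 1
  else if x % 3 = 2 then 8 * s - (x - 2) / 3
  else 6 * s - 2 * ((x - 3) / 3) - 1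

def B7 (s x : ℤ) : ℤ :=
  if x = 3 * s + 1 then 4 * s + 2
  else if x % 3 = 1 then 8 * s - (x - 1) / 3 + 3
  else if x % 3 = 2 then 6 * s - 2 * ((x - 2) / 3) + 1
  else 4 * s - (x - 3) / 3 + 1

def B13 (s x : ℤ) : ℤ :=
  if x = 3 * s + 2 then 7 * s + 5
  else if x % 3 = 1 then 4 * s - (x - 1) / 3 + 3
  else if x % 3 = 2 then 6 * s - 2 * ((x - 2) / 3) + 3
  else 8 * s - (x - 3) / 3 + 5

def B3 (s x : ℤ) : ℤ :=
  if x % 3 = 1 then 8 * s - (x - 1) / 3 + 1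
  else if x % 3 = 2 then 4 * s - (x - 2) / 3
  else 6 * s - 2 * ((x - 3) / 3) - 1

def B9 (s x : ℤ) : ℤ :=
  if x = 2 then 8 * s + 3
  else if x = 3 then 8 * s + 1
  else if x = 5 then 8 * s + 2
  else if x = 3 * s - 1 then 3 * s + 2
  else if x = 3 * s then 7 * s + 3
  else if x % 3 = 1 then 4 * s - (x - 1) / 3 + 3
  else if x % 3 = 2 then 8 * s - (x - 2) / 3 + 2
  else 6 * s - 2 * ((x - 3) / 3) + 1

def B15 (s x : ℤ) : ℤ :=
  if x % 3 = 1 then 4 * s - (x - 1) / 3 + 3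
  else if x % 3 = 2 then 8 * s - (x - 2) / 3 + 6
  else 6 * s - 2 * ((x - 3) / 3) + 3

theorem B1_ok (s : ℤ) (hs : 2 ≤ s) : HOK (18 * s + 1) (3 * s) (B1 s) := by
  intro x h1 h2
  refine ⟨?_, ?_, fun y h3 h4 => ⟨?_, ?_, ?_, ?_, ?_, ?_, ?_, ?_, ?_, ?_, ?_⟩⟩ <;>
    try unfold B1
  all_goals try split_ifs
  all_goals omega

theorem B7_ok (s : ℤ) (hs : 2 ≤ s) : HOK (18 * s + 7) (3 * s + 1) (B7 s) := by
  intro x h1 h2
  refine ⟨?_, ?_, fun y h3 h4 => ⟨?_, ?_, ?_, ?_, ?_, ?_, ?_, ?_, ?_, ?_, ?_⟩⟩ <;>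
    try unfold B7
  all_goals try split_ifs
  all_goals omega

theorem B13_ok (s : ℤ) (hs : 2 ≤ s) : HOK (18 * s + 13) (3 * s + 2) (B13 s) := by
  intro x h1 h2
  refine ⟨?_, ?_, fun y h3 h4 => ⟨?_, ?_, ?_, ?_, ?_, ?_, ?_, ?_, ?_, ?_, ?_⟩⟩ <;>
    try unfold B13
  all_goals try split_ifs
  all_goals omega

theorem B3_ok (s : ℤ) (hs : 2 ≤ s) : HOK (18 * s + 3) (3 * s) (B3 s) := by
  intro x h1 h2
  refine ⟨?_, ?_, fun y h3 h4 => ⟨?_, ?_, ?_, ?_, ?_, ?_, ?_, ?_, ?_, ?_, ?_⟩⟩ <;>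
    try unfold B3
  all_goals try split_ifs
  all_goals omega

theorem B3_av (s : ℤ) (hs : 2 ≤ s) : HAv (3 * s) (B3 s) := by
  intro x h1 h2
  refine ⟨?_, ?_, ?_, ?_⟩ <;> unfold B3
  all_goals try split_ifs
  all_goals omega

theorem B9_ok (s : ℤ) (hs : 4 ≤ s) : HOK (18 * s + 9) (3 * s + 1) (B9 s) := by
  intro x h1 h2
  refine ⟨?_, ?_, fun y h3 h4 => ⟨?_, ?_, ?_, ?_, ?_, ?_, ?_, ?_, ?_, ?_, ?_⟩⟩ <;>
    try unfold B9
  all_goals try split_ifs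
  all_goals omega

theorem B9_av (s : ℤ) (hs : 4 ≤ s) : HAv (3 * s + 1) (B9 s) := by
  intro x h1 h2
  refine ⟨?_, ?_, ?_, ?_⟩ <;> unfold B9
  all_goals try split_ifs
  all_goals omega

theorem B15_ok (s : ℤ) (hs : 2 ≤ s) : HOK (18 * s + 15) (3 * s + 2) (B15 s) := by
  intro x h1 h2
  refine ⟨?_, ?_, fun y h3 h4 => ⟨?_, ?_, ?_, ?_, ?_, ?_, ?_, ?_, ?_, ?_, ?_⟩⟩ <;>
    try unfold B15
  all_goals try split_ifs
  all_goals omega

theorem B15_av (s : ℤ) (hs : 2 ≤ s) : HAv (3 * s + 2) (B15 s) := by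
  intro x h1 h2
  refine ⟨?_, ?_, ?_, ?_⟩ <;> unfold B15
  all_goals try split_ifs
  all_goals omega

end Pool.Agent.T2h49.CSTS
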